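import Mathlib
import Pool.Agent.Q112.FT.Twist

/-!
# Irreducibility from a closed predicate with isobaric sums
-/

set_option autoImplicit false

namespace Pool.Agent.Q112.FT

variable {W V : Type} [Group W] [AddCommGroup V] [Module ℂ V]

/-- A semisimple representation all of whose constituents over a normal subgroup with nilpotent
quotient are twists of some `S i` is irreducible, if the closed predicate `aut` is compatible with
sums and `V` is not a sum of two subspaces with `aut`. -/
theorem irr_of_cuspidal {ι : Type} {E : ι → Type} [∀ i, AddCommGroup (E i)]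
    [∀ i, Module ℂ (E i)] [FiniteDimensional ℂ V] [Nontrivial V] (A : Subgroup W) [A.Normal]
    [Finite (W ⧸ A)] [Group.IsNilpotent (W ⧸ A)] (R : Representation ℂ W V)
    (hss : ∀ U : Submodule ℂ V, Stable R ⊤ U → ∃ U', Stable R ⊤ U' ∧ IsCompl U U')
    (S : ∀ i, Representation ℂ W (E i)) (hS : ∀ i, NoSelfTwist (S i) A)
    (hA : ∀ U : Submodule ℂ V, Irr R A U → ∃ i, IsTwist R (S i) A U)
    (aut : Subgroup W → Submodule ℂ V → Prop)
    (twist : ∀ H U i, A ≤ H → Stable R H U → IsTwist R (S i) H U → aut H U)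
    (induction : ∀ H M U U₀, A ≤ M → M ≤ H → (∀ h ∈ H, ∀ m ∈ M, h * m * h⁻¹ ∈ M) →
      (M.relIndex H).Prime → Stable R M U₀ → Stable R H U → IsInduced R M H U₀ U →
      aut M U₀ → aut H U)
    (sum : ∀ H U U', aut H U → aut H U' → Disjoint U U' → aut H (U ⊔ U'))
    (cuspidal : ∀ U U', aut ⊤ U → aut ⊤ U' → IsCompl U U' → U = ⊥ ∨ U' = ⊥) :
    Irr R ⊤ ⊤ := by
  classical
  have hirr : ∀ U : Submodule ℂ V, Irr R ⊤ U → aut ⊤ U := fun U hU =>
    irr_aut A R S hS hA aut ⟨twist, induction⟩ le_top hU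
  -- all nonzero stable subspaces are automorphic
  have hall : ∀ (n : ℕ) (U : Submodule ℂ V), Module.finrank ℂ U ≤ n → Stable R ⊤ U → U ≠ ⊥ →
      aut ⊤ U := by
    intro n
    induction n with
    | zero =>
      intro U hn _ hU
      exact absurd (Submodule.finrank_eq_zero.1 (Nat.le_zero.1 hn)) hU
    | succ n ih =>
      intro U hn hst hU
      by_cases h : Irr R ⊤ U
      · exact hirr U h
      · have h1 : ∃ U', U' ≤ U ∧ Stable R ⊤ U' ∧ U' ≠ ⊥ ∧ U' ≠ U := by
          by_contra hcon
          push Not at hcon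
          exact h ⟨hst, hU, fun U' h1 h2 => or_iff_not_imp_left.2 fun h3 => hcon U' h1 h2 h3⟩
        obtain ⟨U₁, hle, hst₁, hne, hneU⟩ := h1
        obtain ⟨T, hT, hc⟩ := hss U₁ hst₁
        have hst₂ : Stable R ⊤ (T ⊓ U) := fun g hg u hu => ⟨hT g hg u hu.1, hst g hg u hu.2⟩
        have hsup : U₁ ⊔ T ⊓ U = U := by
          rw [← sup_inf_assoc_of_le _ hle, hc.sup_eq_top, top_inf_eq]
        have hdis : Disjoint U₁ (T ⊓ U) := hc.disjoint.mono_right inf_le_left
        have hne₂ : T ⊓ U ≠ ⊥ := by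
          intro h0
          rw [h0, sup_bot_eq] at hsup
          exact hneU hsup
        have hlt₂ : T ⊓ U < U := by
          refine lt_of_le_of_ne inf_le_right fun h0 => ?_
          apply hne
          rw [h0] at hdis
          exact hdis.eq_bot_of_le hle
        have hlt₁ : U₁ < U := lt_of_le_of_ne hle hneU
        have h3 := Submodule.finrank_lt_finrank_of_lt hlt₁
        have h4 := Submodule.finrank_lt_finrank_of_lt hlt₂
        rw [← hsup]
        exact sum ⊤ _ _ (ih U₁ (by omega) hst₁ hne) (ih (T ⊓ U) (by omega) hst₂ hne₂) hdis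
  refine ⟨fun _ _ _ _ => trivial, top_ne_bot, fun U _ hU => ?_⟩
  obtain ⟨T, hT, hc⟩ := hss U hU
  by_cases h0 : U = ⊥
  · exact Or.inl h0
  · by_cases h1 : T = ⊥
    · right
      have := hc.sup_eq_top
      rwa [h1, sup_bot_eq] at this
    · rcases cuspidal U T (hall _ U le_rfl hU h0) (hall _ T le_rfl hT h1) hc with h | h
      · exact absurd h h0
      · exact absurd h h1

end Pool.Agent.Q112.FT
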